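import Pool.Agent.Helper71.FL.Flat

/-!
# Invariant forms do not see flat factors

Let `G` be a connected semisimple Lie group with Lie algebra `L` and Cartan involution `θ`, and let
`X = G/K`. A totally geodesic subspace of `X` through the base point is given by a Lie triple system
`q` in the `-1` eigenspace of `θ`; its flat factor is a subspace `a` of `q` commuting with `q`. The
theorem says that every `G`-invariant form on `X`, restricted to this subspace, is the pullback of a
form of the other factor.
-/

set_option autoImplicit false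

namespace Pool.Agent.Results.MP_6f8b02_al.FlatFactor

/-- The restriction of an invariant form to `q` is pulled back from `q / a`, whenever `a` is a
subspace of `q` commuting with `q`. -/
theorem result : ∀ (L : Type) [LieRing L] [LieAlgebra ℝ L] [FiniteDimensional ℝ L]
    [LieAlgebra.IsKilling ℝ L] (θ : L →ₗ⁅ℝ⁆ L), (∀ x, θ (θ x) = x) →
    ∀ (k : ℕ) (η : L [⋀^Fin k]→ₗ[ℝ] ℝ), Pool.Agent.Helper71.FL.IsInvForm θ η →
    ∀ q a : Submodule ℝ L, (∀ x ∈ q, θ x = -x) → a ≤ q → (∀ x ∈ a, ∀ y ∈ q, ⁅x, y⁆ = 0) →
    ∃ η' : (q ⧸ a.comap q.subtype) [⋀^Fin k]→ₗ[ℝ] ℝ, ∀ v : Fin k → q,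
      η (fun i => (v i : L)) = η' (fun i => (a.comap q.subtype).mkQ (v i)) := by
  intro L _ _ _ _ θ hθ k η hη q a hq haq hc
  exact Pool.Agent.Helper71.FL.flat_quot θ hθ η hη q a hq haq hc

end Pool.Agent.Results.MP_6f8b02_al.FlatFactor
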