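import Pool.Agent.Helper71.KH.Main
import Pool.Agent.Helper71.KH.Kah

/-!
# The top power of the bounded Kähler class of SU(n,1) annihilates bounded cohomology

`κ = kap` is a continuous bounded cocycle of degree 2 on `SU(n,1)` and its `n`-th cup power is
zero in bounded cohomology after multiplication by any class of positive degree, for every subgroup
`Γ` of `SU(n,1)` and every Banach space with an isometric action of `Γ`.
-/

set_option autoImplicit false

namespace Pool.Agent.Results.MP_6f8b02_al.KaehlerPowers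

open Pool.Agent.Helper71.KH

/-- The topological group `SU(n,1)`: the subgroup `SU n` of `SL_{n+1}(ℂ)` with the induced
topology. -/
def G (n : ℕ) : Type := SU n

noncomputable instance (n : ℕ) : Group (G n) := inferInstanceAs (Group (SU n))

instance (n : ℕ) : TopologicalSpace (G n) := inferInstanceAs (TopologicalSpace (SU n))

/-- Isometric actions of a subgroup `Γ` of `SU(n,1)` on `E`. -/
def Act {n : ℕ} (Γ : Subgroup (G n)) (E : Type) [NormedAddCommGroup E] [NormedSpace ℝ E] : Type :=
  Γ →* (E ≃ₗᵢ[ℝ] E)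

/-- The trivial action on the real numbers. -/
noncomputable def triv {n : ℕ} (Γ : Subgroup (G n)) : Act Γ ℝ := (1 : Γ →* (ℝ ≃ₗᵢ[ℝ] ℝ))

/-- `f` is a continuous bounded `Γ`-equivariant cochain of degree `k` on `SU(n,1)`. -/
def Cochain {n k : ℕ} (Γ : Subgroup (G n)) {E : Type} [NormedAddCommGroup E] [NormedSpace ℝ E]
    (ρ : Act Γ E) (f : (Fin (k + 1) → G n) → E) : Prop :=
  IsBC Γ ρ f

/-- The Kähler cocycle `kah` on `SU(n,1)`. -/
noncomputable def kap (n : ℕ) (x : Fin 3 → G n) : ℝ := kah x

theorem lt_two_mul {j : ℕ} (i : Fin j) {c : ℕ} (hc : c < 3) : 2 * (i : ℕ) + c < 2 * j + 1 := by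
  omega

/-- The `j`-th cup power of the Kähler cocycle, a cochain of degree `2 j`. -/
noncomputable def kapPow (n j : ℕ) (x : Fin (2 * j + 1) → G n) : ℝ :=
  ∏ i : Fin j, kap n fun c => x ⟨2 * i + c, lt_two_mul i c.2⟩

theorem lt_front {m l : ℕ} (i : Fin (m + 2)) : (i : ℕ) < m + l + 2 := by omega

theorem lt_back {m l : ℕ} (j : Fin (l + 1)) : m + 1 + (j : ℕ) < m + l + 2 := by omega

/-- The cup product of a cochain `v` of degree `m + 1` and a real cochain `a` of degree `l`. -/
def cup {n m l : ℕ} {E : Type} [NormedAddCommGroup E] [NormedSpace ℝ E]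
    (v : (Fin (m + 2) → G n) → E) (a : (Fin (l + 1) → G n) → ℝ) (x : Fin (m + l + 2) → G n) : E :=
  a (fun j => x ⟨m + 1 + j, lt_back j⟩) • v (fun i => x ⟨i, lt_front i⟩)

/-- The Kähler cocycle is a continuous bounded cocycle of `SU(n,1)`; for every subgroup `Γ`, every
Banach space `E` with an isometric action `ρ` of `Γ` and every continuous bounded `Γ`-equivariant
cocycle `v` of degree `m + 1` the product of `v` and the `n`-th power of the Kähler cocycle is the
coboundary of a continuous bounded `Γ`-equivariant cochain. -/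
theorem result : ∀ n : ℕ, 0 < n →
    (Cochain (k := 2) ⊤ (triv ⊤) (kap n) ∧ dd (k := 2) (kap n) = 0) ∧
    ∀ (Γ : Subgroup (G n)) (E : Type) [NormedAddCommGroup E] [NormedSpace ℝ E] [CompleteSpace E]
      (ρ : Act Γ E) (m : ℕ) (v : (Fin (m + 2) → G n) → E),
      Cochain Γ ρ v → dd v = 0 →
      ∃ B : (Fin (m + 2 * n + 1) → G n) → E, Cochain Γ ρ B ∧ dd B = cup v (kapPow n n) := by
  intro n _
  refine ⟨⟨kah_isBC, dd_kah⟩, ?_⟩
  intro Γ E _ _ _ ρ m v hv hdv
  obtain ⟨B, hB, h⟩ := main n E Γ ρ m v hv hdv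
  have key : ∀ y : Fin (2 * n + 1) → SU n, kahPow n y = kapPow n n y := by
    intro y
    unfold kahPow kapPow kap
    refine Finset.prod_congr rfl fun i _ => congrArg kah ?_
    funext c
    fin_cases c <;> rfl
  refine ⟨B, hB, funext fun x => (h x).trans ?_⟩
  rw [key]
  rfl

end Pool.Agent.Results.MP_6f8b02_al.KaehlerPowers
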