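import Pool.Agent.Helper87.EX.Fin

/-!
# The comparison map of `SL_3(ℂ)` is not injective in degree five
-/

set_option autoImplicit false

namespace Pool.Agent.Results.MP_6f8b02_al.NotInjective

/-- The comparison map from continuous bounded cohomology to continuous cohomology (real
coefficients, homogeneous invariant cochains) of the group `G` is one-to-one in degree `k + 1`. -/
def InjectiveInDegreeSucc (G : Type) [Group G] [TopologicalSpace G] (k : ℕ) : Prop :=
  ∀ b : (Fin (k + 2) → G) → ℝ, Continuous b →
    (∀ (g : G) (x : Fin (k + 2) → G), b (fun j => g * x j) = b x) →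
    (∃ C : ℝ, ∀ x : Fin (k + 2) → G, |b x| ≤ C) →
    (∃ h : (Fin (k + 1) → G) → ℝ, Continuous h ∧
        (∀ (g : G) (x : Fin (k + 1) → G), h (fun j => g * x j) = h x) ∧
        ∀ x : Fin (k + 2) → G,
          b x = ∑ i : Fin (k + 2), (-1 : ℝ) ^ (i : ℕ) * h (fun j => x (Fin.succAbove i j))) →
    ∃ h' : (Fin (k + 1) → G) → ℝ, Continuous h' ∧
        (∀ (g : G) (x : Fin (k + 1) → G), h' (fun j => g * x j) = h' x) ∧
        (∃ C : ℝ, ∀ x : Fin (k + 1) → G, |h' x| ≤ C) ∧
        ∀ x : Fin (k + 2) → G,
          b x = ∑ i : Fin (k + 2), (-1 : ℝ) ^ (i : ℕ) * h' (fun j => x (Fin.succAbove i j))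

/-- If `SL_3(ℂ)` is a retract of the topological group `G` (by continuous homomorphisms), then the
comparison map of `G` is not injective in degree `5`. -/
theorem result (G : Type) [Group G] [TopologicalSpace G]
    (p : G →* Matrix.SpecialLinearGroup (Fin 3) ℂ) (s : Matrix.SpecialLinearGroup (Fin 3) ℂ →* G)
    (hp : Continuous p) (hs : Continuous s) (hps : ∀ g, p (s g) = g) :
    ¬ InjectiveInDegreeSucc G 4 := by
  intro H
  obtain ⟨b, hc, hL, ⟨C, hC⟩, ⟨h, h1, h2, h3⟩, hn⟩ := Pool.Agent.Helper87.EX.main
  have cp : ∀ n : ℕ, Continuous (fun x : Fin n → G => fun j => p (x j)) := fun n =>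
    continuous_pi fun j => hp.comp (continuous_apply j)
  have csx : ∀ n : ℕ, Continuous
      (fun x : Fin n → Matrix.SpecialLinearGroup (Fin 3) ℂ => fun j => s (x j)) := fun n =>
    continuous_pi fun j => hs.comp (continuous_apply j)
  obtain ⟨h', k1, k2, ⟨C', k3⟩, k4⟩ := H (fun x => b fun j => p (x j)) (hc.comp (cp _))
    (fun g x => by
      have := hL (p g) (fun j => p (x j))
      simpa only [map_mul] using this)
    ⟨C, fun x => hC _⟩
    ⟨fun x => h fun j => p (x j), h1.comp (cp _), fun g x => by
      have := h2 (p g) (fun j => p (x j))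
      simpa only [map_mul] using this, fun x => h3 _⟩
  refine hn ⟨fun x => h' fun j => s (x j), k1.comp (csx _), fun g x => ?_, ⟨C', fun x => k3 _⟩,
    fun x => ?_⟩
  · have := k2 (s g) (fun j => s (x j))
    simpa only [map_mul] using this
  · have := k4 (fun j => s (x j))
    simp only [hps] at this
    exact this

end Pool.Agent.Results.MP_6f8b02_al.NotInjective
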