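import Pool.Agent.Helper11.BR.Grp

/-!
# Products of groups of real rank one: the comparison map is bijective in every degree
-/

set_option autoImplicit false

open Matrix
open scoped Quaternion

namespace Pool.Agent.Results.MP_6f8b02_al.RankOneFactors

/-- The comparison map from continuous bounded cohomology to continuous cohomology (real
coefficients, homogeneous invariant cochains) is onto and one-to-one in every positive degree
`k + 1`. -/
def Cmp (G : Type) [Group G] [TopologicalSpace G] : Prop :=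
  ∀ k : ℕ,
    (∀ f : (Fin (k + 2) → G) → ℝ, Continuous f →
      (∀ (g : G) (x : Fin (k + 2) → G), f (fun j => g * x j) = f x) →
      (∀ x : Fin (k + 3) → G,
        ∑ i : Fin (k + 3), (-1 : ℝ) ^ (i : ℕ) * f (fun j => x (Fin.succAbove i j)) = 0) →
      ∃ b : (Fin (k + 2) → G) → ℝ, Continuous b ∧
        (∀ (g : G) (x : Fin (k + 2) → G), b (fun j => g * x j) = b x) ∧
        (∃ C : ℝ, ∀ x : Fin (k + 2) → G, |b x| ≤ C) ∧
        ∃ h : (Fin (k + 1) → G) → ℝ, Continuous h ∧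
          (∀ (g : G) (x : Fin (k + 1) → G), h (fun j => g * x j) = h x) ∧
          ∀ x : Fin (k + 2) → G,
            f x = b x + ∑ i : Fin (k + 2), (-1 : ℝ) ^ (i : ℕ) * h (fun j => x (Fin.succAbove i j))) ∧
    (∀ b : (Fin (k + 2) → G) → ℝ, Continuous b →
      (∀ (g : G) (x : Fin (k + 2) → G), b (fun j => g * x j) = b x) →
      (∃ C : ℝ, ∀ x : Fin (k + 2) → G, |b x| ≤ C) →
      (∃ h : (Fin (k + 1) → G) → ℝ, Continuous h ∧
          (∀ (g : G) (x : Fin (k + 1) → G), h (fun j => g * x j) = h x) ∧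
          ∀ x : Fin (k + 2) → G,
            b x = ∑ i : Fin (k + 2), (-1 : ℝ) ^ (i : ℕ) * h (fun j => x (Fin.succAbove i j))) →
      ∃ h' : (Fin (k + 1) → G) → ℝ, Continuous h' ∧
          (∀ (g : G) (x : Fin (k + 1) → G), h' (fun j => g * x j) = h' x) ∧
          (∃ C : ℝ, ∀ x : Fin (k + 1) → G, |h' x| ≤ C) ∧
          ∀ x : Fin (k + 2) → G,
            b x = ∑ i : Fin (k + 2), (-1 : ℝ) ^ (i : ℕ) * h' (fun j => x (Fin.succAbove i j)))

/-- `diag (-1, 1, …, 1)`, of size `m + 1`. -/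
def J (K : Type) [Ring K] (m : ℕ) : Matrix (Fin (m + 1)) (Fin (m + 1)) K :=
  diagonal fun i => if i = 0 then -1 else 1

/-- `G` is isomorphic, as a topological group, to `SO_0(m, 1)` with `m ≥ 2`, or to `SU(m, 1)` or
`Sp(m, 1)` with `m ≥ 1`. -/
def IsFactor (G : Type) [Group G] [TopologicalSpace G] : Prop :=
  (∃ m : ℕ, 2 ≤ m ∧ ∃ S : Subgroup (Matrix.SpecialLinearGroup (Fin (m + 1)) ℝ),
    (∀ g : Matrix.SpecialLinearGroup (Fin (m + 1)) ℝ, g ∈ S ↔
      ((g : Matrix (Fin (m + 1)) (Fin (m + 1)) ℝ)ᵀ * J ℝ m *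
        (g : Matrix (Fin (m + 1)) (Fin (m + 1)) ℝ) = J ℝ m ∧
      0 < (g : Matrix (Fin (m + 1)) (Fin (m + 1)) ℝ) 0 0)) ∧ Nonempty (S ≃ₜ* G)) ∨
  (∃ m : ℕ, 1 ≤ m ∧ ∃ S : Subgroup (Matrix.SpecialLinearGroup (Fin (m + 1)) ℂ),
    (∀ g : Matrix.SpecialLinearGroup (Fin (m + 1)) ℂ, g ∈ S ↔
      (g : Matrix (Fin (m + 1)) (Fin (m + 1)) ℂ)ᴴ * J ℂ m *
        (g : Matrix (Fin (m + 1)) (Fin (m + 1)) ℂ) = J ℂ m) ∧ Nonempty (S ≃ₜ* G)) ∨
  (∃ m : ℕ, 1 ≤ m ∧ ∃ S : Subgroup (Matrix (Fin (m + 1)) (Fin (m + 1)) ℍ[ℝ])ˣ,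
    (∀ g : (Matrix (Fin (m + 1)) (Fin (m + 1)) ℍ[ℝ])ˣ, g ∈ S ↔
      (g : Matrix (Fin (m + 1)) (Fin (m + 1)) ℍ[ℝ])ᴴ * J ℍ[ℝ] m *
        (g : Matrix (Fin (m + 1)) (Fin (m + 1)) ℍ[ℝ]) = J ℍ[ℝ] m) ∧ Nonempty (S ≃ₜ* G))

/-- `π` is a continuous, open and surjective homomorphism with compact kernel. -/
def CompactExt {S Q : Type} [Group S] [TopologicalSpace S] [Group Q] [TopologicalSpace Q]
    (π : S →* Q) : Prop :=
  Continuous π ∧ IsOpenMap π ∧ Function.Surjective π ∧ IsCompact (π.ker : Set S)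

theorem cmp_iff (G : Type) [Group G] [TopologicalSpace G] : Cmp G ↔ Helper11.BR.Bij G := by
  constructor
  · intro h n hn
    obtain ⟨k, rfl⟩ : ∃ k, n = k + 1 := ⟨n - 1, by omega⟩
    obtain ⟨hs, hi⟩ := h k
    constructor
    · intro b v hb hv hbv
      have hbf : b = Helper11.BR.dF v := funext hbv
      have hbc : Continuous b := by
        rw [hbf]
        exact continuous_finset_sum _ fun i _ => continuous_const.mul
          (hv.1.comp (continuous_pi fun j => continuous_apply _))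
      have hbi : ∀ (g : G) (x : Fin (k + 1 + 1) → G), b (fun j => g * x j) = b x := fun g x => by
        rw [hbf]
        exact Finset.sum_congr rfl fun i _ => by rw [hv.2 g fun j => x (i.succAbove j)]
      obtain ⟨u, h1, h2, h3, h4⟩ := hi b hbc hbi hb ⟨v, hv.1, hv.2, hbv⟩
      exact ⟨u, ⟨h1, h2⟩, h3, h4⟩
    · intro b hb hd
      obtain ⟨b', h1, h2, h3, u, h4, h5, h6⟩ := hs b hb.1 hb.2 hd
      exact ⟨b', u, ⟨h1, h2⟩, h3, ⟨h4, h5⟩, h6⟩
  · intro h k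
    obtain ⟨hi, hs⟩ := h (k + 1) (by omega)
    refine ⟨fun f hc hf hd => ?_, fun b hc hbi hb ⟨v, h1, h2, h3⟩ => ?_⟩
    · obtain ⟨b, u, h1, h2, h3, h4⟩ := hs f ⟨hc, hf⟩ hd
      exact ⟨b, h1.1, h1.2, h2, u, h3.1, h3.2, h4⟩
    · obtain ⟨u, h4, h5, h6⟩ := hi b v hb ⟨h1, h2⟩ h3
      exact ⟨u, h4.1, h4.2, h5, h6⟩

theorem factor_tg {G : Type} [Group G] [TopologicalSpace G] (h : IsFactor G) :
    ∃ X : Helper11.BR.TG, Nonempty (X.T ≃ₜ* G) := by
  rcases h with ⟨m, hm, S, hS, ⟨e⟩⟩ | ⟨m, hm, S, hS, ⟨e⟩⟩ | ⟨m, hm, S, hS, ⟨e⟩⟩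
  · obtain ⟨X, ⟨e'⟩⟩ := Helper11.BR.tg_so m hm S hS
    exact ⟨X, ⟨e'.trans e⟩⟩
  · obtain ⟨X, ⟨e'⟩⟩ := Helper11.BR.tg_su m hm S hS
    exact ⟨X, ⟨e'.trans e⟩⟩
  · obtain ⟨X, ⟨e'⟩⟩ := Helper11.BR.tg_sp m hm S hS
    exact ⟨X, ⟨e'.trans e⟩⟩

/-- Let `G i`, `i < r`, be topological groups isomorphic to `SO_0(m, 1)` (`m ≥ 2`), `SU(m, 1)` or
`Sp(m, 1)` (`m ≥ 1`).

(1) If `S → Q ← Π G i` are continuous open surjective homomorphisms with compact kernels, then the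
comparison map of `S` is bijective in every positive degree.

(2) If `H` is a locally compact first countable Hausdorff group and `S → Q ← H × Π G i` are
continuous open surjective homomorphisms with compact kernels, then the comparison map of `S` is
bijective in every positive degree if and only if this holds for `H`. -/
theorem result (r : ℕ) (G : Fin r → Type) [∀ i, Group (G i)] [∀ i, TopologicalSpace (G i)]
    [∀ i, IsTopologicalGroup (G i)] (hG : ∀ i, IsFactor (G i)) :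
    (∀ (S Q : Type) [Group S] [TopologicalSpace S] [IsTopologicalGroup S] [Group Q]
      [TopologicalSpace Q] (π : S →* Q) (p : ((i : Fin r) → G i) →* Q),
      CompactExt π → CompactExt p → Cmp S) ∧
    (∀ (H S Q : Type) [Group H] [TopologicalSpace H] [IsTopologicalGroup H]
      [LocallyCompactSpace H] [FirstCountableTopology H] [T2Space H]
      [Group S] [TopologicalSpace S] [IsTopologicalGroup S] [Group Q] [TopologicalSpace Q]
      (π : S →* Q) (p : (H × ((i : Fin r) → G i)) →* Q),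
      CompactExt π → CompactExt p → (Cmp S ↔ Cmp H)) := by
  have hX : ∀ i, ∃ X : Helper11.BR.TG, Nonempty (X.T ≃ₜ* G i) := fun i => factor_tg (hG i)
  refine ⟨?_, ?_⟩
  · intro S Q _ _ _ _ _ π p ⟨h1, h2, h3, h4⟩ ⟨k1, k2, k3, k4⟩
    rw [cmp_iff, Helper11.BR.bij_ker π h1 h2 h3 h4, ← Helper11.BR.bij_ker p k1 k2 k3 k4]
    exact Helper11.BR.bij_pi' r G hX
  · intro H S Q _ _ _ _ _ _ _ _ _ _ _ π p ⟨h1, h2, h3, h4⟩ ⟨k1, k2, k3, k4⟩
    rw [cmp_iff, cmp_iff, Helper11.BR.bij_ker π h1 h2 h3 h4,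
      ← Helper11.BR.bij_ker p k1 k2 k3 k4]
    exact ⟨fun h => h.fst, fun h => Helper11.BR.bij_rel' H h r G hX⟩

end Pool.Agent.Results.MP_6f8b02_al.RankOneFactors
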